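import Pool.Agent.Q287.Kos.Nest
import Pool.Agent.Q287.Kos.RootZ

/-! A matroid with a building set whose Chow ring is Koszul and whose Hilbert series has a
non-real zero. -/

namespace Pool.Agent.Results.MP_0b1547_co.KoszulNonRealZero

open MvPolynomial Pool.Agent.Q287.Kos

/-- The members of the family `g` that are maximal among those contained in `F`. -/
def MaxIn {α ι : Type} (g : ι → Set α) (F : Set α) : Type :=
  {i : ι // g i ⊆ F ∧ ∀ i', g i' ⊆ F → g i ⊆ g i' → g i' = g i}

/-- The flats of `M` contained in `X` (ordered by inclusion). -/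
abbrev FlatsIn {α : Type} (M : Matroid α) (X : Set α) : Type := {H : Set α // M.IsFlat H ∧ H ⊆ X}

/-- The family `g` lists, without repetition, the members of a building set of the lattice of
flats of the (loopless) matroid `M`: nonempty flats such that, for every nonempty flat `F`, the
join is an order isomorphism from the product of the intervals below the maximal members inside
`F` onto the interval below `F`. -/
structure IsBuildingSet {α ι : Type} (M : Matroid α) (g : ι → Set α) : Prop where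
  inj : Function.Injective g
  flat : ∀ i, M.IsFlat (g i)
  nonempty : ∀ i, (g i).Nonempty
  iso : ∀ F : Set α, M.IsFlat F → F.Nonempty →
    ∃ φ : (∀ j : MaxIn g F, FlatsIn M (g j.1)) ≃o FlatsIn M F,
      ∀ h, (φ h : Set α) = M.closure (⋃ j, (h j : Set α))

/-- A set `S` of (indices of) members is nested: the join of any at least two pairwise
incomparable members of `S` is not in the family. -/
def IsNested {α ι : Type} (M : Matroid α) (g : ι → Set α) (S : Finset ι) : Prop :=
  ∀ T ⊆ S, 2 ≤ T.card → (∀ i ∈ T, ∀ j ∈ T, i ≠ j → ¬ g i ⊆ g j) →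
    ∀ k, M.closure (⋃ i ∈ T, g i) ≠ g k

open Classical in
/-- The ideal of relations of the Chow ring. -/
noncomputable def chowIdeal {α ι : Type} [Fintype ι] (M : Matroid α) (g : ι → Set α) :
    Ideal (MvPolynomial ι ℚ) :=
  Ideal.span ({f | ∃ S : Finset ι, ¬ IsNested M g S ∧ f = ∏ i ∈ S, X i} ∪
    {f | ∃ A : Set α, Minimal (fun F => M.IsFlat F ∧ F.Nonempty) A ∧
      f = ∑ i : ι, if A ⊆ g i then X i else 0})

/-- The dimension of the part of degree `i` of `ℚ[x]/I`. -/
noncomputable def dimDeg {ι : Type} (I : Ideal (MvPolynomial ι ℚ)) (i : ℕ) : ℕ :=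
  Module.finrank ℚ (Submodule.map (Ideal.Quotient.mkₐ ℚ I).toLinearMap (homogeneousSubmodule ι ℚ i))

/-- `A = ℚ[x]/I` is Koszul: the residue field has a resolution by free modules of finite rank
whose maps are matrices with entries of degree one. -/
def IsKoszul {ι : Type} (I : Ideal (MvPolynomial ι ℚ)) : Prop :=
  ∃ (b : ℕ → ℕ) (M : ∀ i : ℕ, Matrix (Fin (b i)) (Fin (b (i + 1))) (MvPolynomial ι ℚ ⧸ I)),
    b 0 = 1 ∧
    (∀ (i : ℕ) (r : Fin (b i)) (c : Fin (b (i + 1))),
      ∃ p : MvPolynomial ι ℚ, p.IsHomogeneous 1 ∧ Ideal.Quotient.mk I p = M i r c) ∧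
    (∀ u : Fin (b 0) → MvPolynomial ι ℚ ⧸ I,
      (∃ w, Matrix.mulVec (M 0) w = u) ↔
        ∀ r, u r ∈ Ideal.map (Ideal.Quotient.mk I)
          (RingHom.ker (constantCoeff : MvPolynomial ι ℚ →+* ℚ))) ∧
    (∀ (i : ℕ) (v : Fin (b (i + 1)) → MvPolynomial ι ℚ ⧸ I),
      Matrix.mulVec (M i) v = 0 ↔ ∃ w, Matrix.mulVec (M (i + 1)) w = v)

/-- The 18 members `0, 1, …, 6, 01, 02, 34, 56, 012, 0123, 3456, 01234, 012345, 013456, 0123456`. -/
def G (v : Fin 18) : Set (Fin 7) := {a | mb v a = true}

/-- The Boolean matroid on seven elements. -/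
def B7 : Matroid (Fin 7) := Matroid.freeOn Set.univ

theorem B7_closure (X : Set (Fin 7)) : B7.closure X = X := by
  unfold B7
  rw [Matroid.freeOn_closure_eq, Set.inter_univ]

theorem B7_flat (X : Set (Fin 7)) : B7.IsFlat X :=
  Matroid.isFlat_iff_closure_eq.2 (B7_closure X)

theorem B7_loopless : B7.Loopless := by
  rw [Matroid.loopless_iff_forall_not_isLoop]
  intro e _
  exact Matroid.freeOn_not_isLoop _ e

theorem G_max_disj {F : Set (Fin 7)} (i j : MaxIn G F) (h : (G i.1 ∩ G j.1).Nonempty) : i = j := by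
  obtain ⟨a, ha, hb⟩ := h
  obtain ⟨k, hk⟩ := union_mem i.1 j.1 ⟨a, ha, hb⟩
  have hk' : G k = G i.1 ∪ G j.1 := by
    ext b
    show mb k b = true ↔ _
    rw [hk b, Bool.or_eq_true]
    rfl
  have hF : G k ⊆ F := by rw [hk']; exact Set.union_subset i.2.1 j.2.1
  have h1 := i.2.2 k hF (by rw [hk']; exact Set.subset_union_left)
  have h2 := j.2.2 k hF (by rw [hk']; exact Set.subset_union_right)
  apply Subtype.ext
  apply mb_inj
  intro b
  have h3 : b ∈ G i.1 ↔ b ∈ G j.1 := by rw [← h1, ← h2]
  exact Bool.eq_iff_iff.2 h3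

theorem G_max_cover {F : Set (Fin 7)} {a : Fin 7} (ha : a ∈ F) : ∃ j : MaxIn G F, a ∈ G j.1 := by
  classical
  obtain ⟨k, hk⟩ := single_mem a
  have hs : ({i : Fin 18 | G i ⊆ F ∧ a ∈ G i} : Set (Fin 18)).Nonempty := by
    refine ⟨k, ?_, ?_⟩
    · intro b hb
      have : mb k b = true := hb
      rw [hk b, decide_eq_true_eq] at this
      rw [this]; exact ha
    · show mb k a = true
      rw [hk a]; simp
  obtain ⟨i, hi, hmax⟩ := Set.exists_max_image {i : Fin 18 | G i ⊆ F ∧ a ∈ G i}
    (fun i => (G i).ncard) (Set.toFinite _) hs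
  refine ⟨⟨i, hi.1, fun i' h1 h2 => ?_⟩, hi.2⟩
  have h3 := hmax i' ⟨h1, h2 hi.2⟩
  exact (Set.eq_of_subset_of_ncard_le h2 h3 (Set.toFinite _)).symm

theorem G_building : IsBuildingSet B7 G := by
  refine ⟨?_, fun i => B7_flat _, ?_, ?_⟩
  · intro u v h
    apply mb_inj
    intro a
    have h3 : a ∈ G u ↔ a ∈ G v := by rw [h]
    exact Bool.eq_iff_iff.2 h3
  · intro i
    obtain ⟨a, ha⟩ := mb_nonempty i
    exact ⟨a, ha⟩
  · intro F _ _
    let e : (∀ j : MaxIn G F, FlatsIn B7 (G j.1)) ≃ FlatsIn B7 F :=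
      { toFun := fun h => ⟨⋃ j, (h j : Set (Fin 7)), B7_flat _,
          Set.iUnion_subset (fun j => (h j).2.2.trans j.2.1)⟩
        invFun := fun H j => ⟨(H : Set (Fin 7)) ∩ G j.1, B7_flat _, Set.inter_subset_right⟩
        left_inv := by
          intro h
          funext j
          apply Subtype.ext
          show (⋃ j', (h j' : Set (Fin 7))) ∩ G j.1 = (h j : Set (Fin 7))
          apply Set.Subset.antisymm
          · rintro a ⟨ha, haj⟩
            obtain ⟨j', hj'⟩ := Set.mem_iUnion.1 ha
            have : j' = j := G_max_disj j' j ⟨a, (h j').2.2 hj', haj⟩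
            rw [← this]; exact hj'
          · intro a ha
            exact ⟨Set.mem_iUnion.2 ⟨j, ha⟩, (h j).2.2 ha⟩
        right_inv := by
          intro H
          apply Subtype.ext
          show (⋃ j : MaxIn G F, (H : Set (Fin 7)) ∩ G j.1) = (H : Set (Fin 7))
          apply Set.Subset.antisymm
          · exact Set.iUnion_subset (fun j => Set.inter_subset_left)
          · intro a ha
            obtain ⟨j, hj⟩ := G_max_cover (H.2.2 ha)
            exact Set.mem_iUnion.2 ⟨j, ha, hj⟩ }
    refine ⟨⟨e, ?_⟩, ?_⟩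
    · intro h h'
      constructor
      · intro hle j a ha
        have h1 : a ∈ ⋃ j', (h' j' : Set (Fin 7)) := hle (Set.mem_iUnion.2 ⟨j, ha⟩)
        obtain ⟨j', hj'⟩ := Set.mem_iUnion.1 h1
        have : j' = j := G_max_disj j' j ⟨a, (h' j').2.2 hj', (h j).2.2 ha⟩
        rw [← this]; exact hj'
      · intro hle a ha
        obtain ⟨j, hj⟩ := Set.mem_iUnion.1 ha
        exact Set.mem_iUnion.2 ⟨j, hle j hj⟩
    · intro h
      rw [B7_closure]
      rfl

theorem atom_iff (A : Set (Fin 7)) :
    Minimal (fun F => B7.IsFlat F ∧ F.Nonempty) A ↔ ∃ a, A = {a} := by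
  constructor
  · rintro ⟨⟨_, a, ha⟩, hmin⟩
    refine ⟨a, Set.Subset.antisymm ?_ (Set.singleton_subset_iff.2 ha)⟩
    exact hmin ⟨B7_flat {a}, a, rfl⟩ (Set.singleton_subset_iff.2 ha)
  · rintro ⟨a, rfl⟩
    refine ⟨⟨B7_flat _, a, rfl⟩, ?_⟩
    rintro F ⟨_, b, hb⟩ hF
    have : b = a := hF hb
    rw [← this]
    exact Set.singleton_subset_iff.2 hb

theorem theta_eq (a : Fin 7) (inst : ∀ i : Fin 18, Decidable (({a} : Set (Fin 7)) ⊆ G i)) :
    (∑ i : Fin 18, if ({a} : Set (Fin 7)) ⊆ G i then (X i : P18) else 0) = theta a := by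
  unfold theta
  apply Finset.sum_congr rfl
  intro v _
  have hiff : ({a} : Set (Fin 7)) ⊆ G v ↔ mb v a = true := Set.singleton_subset_iff
  by_cases h : mb v a = true
  · rw [if_pos h, if_pos (hiff.2 h)]
  · rw [if_neg h, if_neg (fun h' => h (hiff.1 h'))]

theorem chow_eq : chowIdeal B7 G = JT 262143 := by
  classical
  apply le_antisymm
  · apply Ideal.span_le.2
    rintro f (⟨S, hS, rfl⟩ | ⟨A, hA, rfl⟩)
    · -- a non-nested set contains an incompatible pair
      have hex : ∃ u ∈ S, ∃ v ∈ S, adj u v = false := by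
        by_contra hc
        push Not at hc
        apply hS
        intro T hTS hT2 hTa k hk
        rw [B7_closure] at hk
        obtain ⟨a, ha⟩ := flag T (fun u hu v hv _ => by
          have := hc u (hTS hu) v (hTS hv)
          simpa using this) (fun u hu v hv huv => by
          obtain ⟨a, ha1, ha2⟩ := Set.not_subset.1 (hTa u hu v hv huv)
          exact ⟨a, ha1, by simpa [G] using ha2⟩) hT2 k
        apply ha
        have h1 : a ∈ (⋃ i ∈ T, G i) ↔ a ∈ G k := by rw [hk]
        rw [Set.mem_iUnion₂] at h1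
        simp only [exists_prop] at h1
        exact h1
      obtain ⟨u, hu, v, hv, huv⟩ := hex
      have hne := (not_adj u v huv).1
      have hdvd : (X u * X v : P18) ∣ ∏ i ∈ S, X i := by
        rw [← Finset.prod_pair hne]
        apply Finset.prod_dvd_prod_of_subset
        intro x hx
        rw [Finset.mem_insert, Finset.mem_singleton] at hx
        rcases hx with h | h
        · rw [h]; exact hu
        · rw [h]; exact hv
      exact Ideal.mem_of_dvd _ hdvd (XX_mem _ huv)
    · obtain ⟨a, rfl⟩ := (atom_iff A).1 hA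
      show (∑ i : Fin 18, if ({a} : Set (Fin 7)) ⊆ G i then (X i : P18) else 0) ∈ JT 262143
      rw [theta_eq]
      exact theta_mem 262143 a
  · apply Ideal.span_le.2
    rintro f ((⟨u, v, huv, rfl⟩ | ⟨a, rfl⟩) | ⟨v, hv, rfl⟩)
    · obtain ⟨hne, h1, h2, k, hk⟩ := not_adj u v huv
      apply Ideal.subset_span
      refine Or.inl ⟨{u, v}, ?_, (Finset.prod_pair hne).symm⟩
      intro hN
      apply hN {u, v} (Finset.Subset.refl _) (by rw [Finset.card_pair hne]) ?_ k
      · rw [B7_closure]
        ext b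
        show b ∈ (⋃ i ∈ ({u, v} : Finset (Fin 18)), G i) ↔ mb k b = true
        rw [hk b, Bool.or_eq_true, Set.mem_iUnion₂]
        constructor
        · rintro ⟨i, hi, hb⟩
          rw [Finset.mem_insert, Finset.mem_singleton] at hi
          rcases hi with h | h
          · rw [h] at hb; exact Or.inl hb
          · rw [h] at hb; exact Or.inr hb
        · rintro (hb | hb)
          · exact ⟨u, by simp, hb⟩
          · exact ⟨v, by simp, hb⟩
      · intro i hi j hj hij hsub
        obtain ⟨a, ha1, ha2⟩ := h1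
        obtain ⟨b, hb1, hb2⟩ := h2
        rw [Finset.mem_insert, Finset.mem_singleton] at hi hj
        rcases hi with rfl | rfl <;> rcases hj with rfl | rfl
        · exact hij rfl
        · have : mb j a = true := hsub ha1
          rw [this] at ha2; exact absurd ha2 (by decide)
        · have : mb j b = true := hsub hb1
          rw [this] at hb2; exact absurd hb2 (by decide)
        · exact hij rfl
    · apply Ideal.subset_span
      exact Or.inr ⟨{a}, (atom_iff _).2 ⟨a, rfl⟩, (theta_eq a _).symm⟩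
    · rw [full_bit v] at hv; exact absurd hv (by decide)

theorem koszul : IsKoszul (JT 262143) := by
  have hlift : Lifts (LinOf (Ideal.Quotient.mk (JT 262143))) := by
    apply lifts _ Ideal.Quotient.mk_surjective
    intro p hp n
    rw [Ideal.Quotient.eq_zero_iff_mem] at hp ⊢
    exact homogeneousComponent_mem_of_mem (JT_hom 262143) hp n
  obtain ⟨b, M, h1, h2, h3, h4⟩ := resolution hlift filt (I := Iw 197330)
    ⟨197330, by decide, rfl⟩
  refine ⟨b, M, h1, fun i r c => ?_, fun u => ?_, h4⟩
  · exact mem_LinOf.1 (h2 i r c)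
  · rw [h3 u]
    unfold Iw
    rw [facet_ideal]

/-- The Boolean matroid on seven elements has a building set (with 18 members) whose Chow ring is
Koszul and whose Hilbert series `1 + 11x + 39x² + 59x³ + 39x⁴ + 11x⁵ + x⁶` has a non-real zero. -/
theorem result : ∃ (M : Matroid (Fin 7)) (g : Fin 18 → Set (Fin 7)),
    M = Matroid.freeOn Set.univ ∧ M.Loopless ∧ IsBuildingSet M g ∧ IsKoszul (chowIdeal M g) ∧
    ∃ H : Polynomial ℚ,
      H = Polynomial.X ^ 6 + 11 * Polynomial.X ^ 5 + 39 * Polynomial.X ^ 4 + 59 * Polynomial.X ^ 3 +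
        39 * Polynomial.X ^ 2 + 11 * Polynomial.X + 1 ∧
      (∀ i, H.coeff i = dimDeg (chowIdeal M g) i) ∧
      ∃ z : ℂ, Polynomial.aeval z H = 0 ∧ z.im ≠ 0 := by
  refine ⟨B7, G, rfl, B7_loopless, G_building, ?_, _, rfl, ?_, ?_⟩
  · rw [chow_eq]; exact koszul
  · intro i
    rw [chow_eq]
    have h := hilb_full i
    have h' : dimDeg (JT 262143) i = hilb (JT 262143) i := rfl
    rw [h', h]
    have hH : (Polynomial.X ^ 6 + 11 * Polynomial.X ^ 5 + 39 * Polynomial.X ^ 4 +
        59 * Polynomial.X ^ 3 + 39 * Polynomial.X ^ 2 + 11 * Polynomial.X + 1 : Polynomial ℚ) =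
        Polynomial.X ^ 6 + Polynomial.C 11 * Polynomial.X ^ 5 + Polynomial.C 39 * Polynomial.X ^ 4 +
        Polynomial.C 59 * Polynomial.X ^ 3 + Polynomial.C 39 * Polynomial.X ^ 2 +
        Polynomial.C 11 * Polynomial.X ^ 1 + Polynomial.C 1 * Polynomial.X ^ 0 := by
      rw [show (Polynomial.C (11 : ℚ)) = 11 from map_ofNat Polynomial.C 11,
        show (Polynomial.C (39 : ℚ)) = 39 from map_ofNat Polynomial.C 39,
        show (Polynomial.C (59 : ℚ)) = 59 from map_ofNat Polynomial.C 59, map_one]
      ring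
    rw [hH]
    simp only [Polynomial.coeff_add, Polynomial.coeff_C_mul, Polynomial.coeff_X_pow]
    rcases i with _ | _ | _ | _ | _ | _ | _ | i
    · norm_num
    · norm_num
    · norm_num
    · norm_num
    · norm_num
    · norm_num
    · norm_num
    · have h7 : ([1, 11, 39, 59, 39, 11, 1] : List ℕ).getD (i + 7) 0 = 0 := by
        rw [List.getD_eq_default]
        simp
      rw [h7]
      simp
  · obtain ⟨z, hz, hzi⟩ := sextic_nonreal
    refine ⟨z, ?_, hzi⟩
    rw [← hz]
    simp [Polynomial.aeval_def]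

end Pool.Agent.Results.MP_0b1547_co.KoszulNonRealZero
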